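import Pool.Agent.H83.LC.Crv
import Pool.Agent.H46.LC.Gen

/-!
The inequality `lcm (1, ..., p_{k+1} - 1) < p_k * lcm (1, ..., p_k)` for the `k` with
`p_{k+1} - p_k ≤ 4 √p_k`: at most `C x ^ (7/45)` of the `k` with `p_k ≤ x` are exceptions.

Let `p < p'` be consecutive primes. The quotient of the two least common multiples is the product of
the primes `q` which have a power (of exponent at least two) between `p` and `p'`. If `p' - p ≤ 4 √p`
and no power of two lies in the gap, then the exponents of these powers are pairwise coprime, since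
`(N + 2) ^ d - N ^ d > 4 √(N ^ d)` for `d ≥ 2`. If no power of exponent at least seven lies in the gap,
then an exception has the exponents two, three and five (the reciprocals of the exponents must add up
to about one). So either the gap contains a prime power of exponent at least seven, and there are at
most `7 (2x) ^ (1/7)` such prime powers, or it contains a fifth power `s ^ 5` and a cube `r ^ 3`, and
`(s, r)` is an integer point at distance `O (s ^ (-5/6))` from the curve `y = x ^ (5/3)`. Determinants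
of three and of four such points (windows of length `S ^ (2/9)`) show that there are at most
`C S ^ (7/9)` of them with `S < s ≤ 2 S`.
-/

namespace Pool.Agent.Results.MP_f9dba0_nt.ShortGaps

open Pool.Agent.H83.LC

lemma set_eq (x : ℕ) : {k : ℕ | Nat.nth Nat.Prime k ≤ x ∧
      (Nat.nth Nat.Prime (k + 1) : ℝ) - Nat.nth Nat.Prime k ≤ 4 * √(Nat.nth Nat.Prime k) ∧
      ¬ (Finset.Icc 1 (Nat.nth Nat.Prime (k + 1) - 1)).lcm id <
        Nat.nth Nat.Prime k * (Finset.Icc 1 (Nat.nth Nat.Prime k)).lcm id} = K x := by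
  ext k
  have hlt : Nat.nth Nat.Prime k < Nat.nth Nat.Prime (k + 1) :=
    Nat.nth_strictMono Nat.infinite_setOfPred_prime (Nat.lt_succ_self k)
  have h1 : (Nat.nth Nat.Prime (k + 1) : ℝ) - Nat.nth Nat.Prime k ≤ 4 * √(Nat.nth Nat.Prime k) ↔
      (Nat.nth Nat.Prime (k + 1) - Nat.nth Nat.Prime k) ^ 2 ≤ 16 * Nat.nth Nat.Prime k := by
    generalize Nat.nth Nat.Prime k = p at *
    generalize Nat.nth Nat.Prime (k + 1) = p' at *
    rw [← Nat.cast_sub hlt.le]
    have h2 : (4 : ℝ) * √(p : ℝ) = √((16 * p : ℕ) : ℝ) := by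
      rw [Nat.cast_mul, Real.sqrt_mul (Nat.cast_nonneg _)]
      congr 1
      rw [show ((16 : ℕ) : ℝ) = 4 ^ 2 by norm_num, Real.sqrt_sq (by norm_num)]
    rw [h2, Real.le_sqrt' (by
      have : 0 < p' - p := by omega
      exact_mod_cast this)]
    exact_mod_cast Iff.rfl
  constructor
  · rintro ⟨h2, h3, h4⟩
    exact ⟨h2, h1.1 h3, not_lt.1 h4⟩
  · rintro ⟨h2, h3, h4⟩
    exact ⟨h2, h1.2 h3, not_lt.2 h4⟩

/-- Of the `k` with `p_k ≤ x` and `p_{k+1} - p_k ≤ 4 √p_k` at most `C x ^ (7/45)` violate the inequality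
`lcm (1, ..., p_{k+1} - 1) < p_k * lcm (1, ..., p_k)`. -/
theorem result : ∃ C : ℝ, ∀ x : ℕ,
    (Set.ncard {k : ℕ | Nat.nth Nat.Prime k ≤ x ∧
      (Nat.nth Nat.Prime (k + 1) : ℝ) - Nat.nth Nat.Prime k ≤ 4 * √(Nat.nth Nat.Prime k) ∧
      ¬ (Finset.Icc 1 (Nat.nth Nat.Prime (k + 1) - 1)).lcm id <
        Nat.nth Nat.Prime k * (Finset.Icc 1 (Nat.nth Nat.Prime k)).lcm id} : ℝ) ≤
      C * (x : ℝ) ^ (7 / 45 : ℝ) := by
  obtain ⟨C, hC⟩ := Pool.Agent.H46.LC.K_gen (7 / 9) (by norm_num) curve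
  refine ⟨C, fun x => ?_⟩
  rw [set_eq]
  have h1 := hC x
  have h2 : (7 / 9 / 5 : ℝ) = 7 / 45 := by norm_num
  rw [h2] at h1
  exact h1

end Pool.Agent.Results.MP_f9dba0_nt.ShortGaps
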